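import Pool.Agent.Q292.TempCore
import Mathlib.Data.Set.Finite.Basic

/-!
# An undirected non-strict temporal graph without a directed proper simple realisation
-/

set_option autoImplicit false

namespace Pool.Agent.Results.MP_352b69_co.NoProperSimple

open Pool.Agent.Q292

universe u

/-- A temporal graph on `V`: the set `E` of (ordered) edges, and the label sets `lam`. -/
structure TemporalGraph (V : Type u) where
  /-- the edges -/
  E : V → V → Prop
  /-- the set of time labels of an edge -/
  lam : V → V → Set ℕ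

variable {V : Type u}

/-- no loops, and finite nonempty label sets on the edges -/
def Directed (G : TemporalGraph V) : Prop :=
  ∀ u v, G.E u v → u ≠ v ∧ (G.lam u v).Finite ∧ (G.lam u v).Nonempty

/-- undirected: moreover `(u, v)` and `(v, u)` form one edge with one label set -/
def Undirected (G : TemporalGraph V) : Prop :=
  Directed G ∧ ∀ u v, G.E u v → G.E v u ∧ G.lam u v = G.lam v u

/-- every edge carries exactly one label -/
def Simple (G : TemporalGraph V) : Prop :=
  ∀ u v, G.E u v → ∃! t, t ∈ G.lam u v

/-- proper: two consecutive temporal edges have different labels -/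
def Proper (G : TemporalGraph V) : Prop :=
  ∀ u v x t t', G.E u v → t ∈ G.lam u v → G.E v x → t' ∈ G.lam v x → x ≠ v → t ≠ t'

/-- `TPath G r u v t S`: there is a temporal path from `u` to `v` on distinct vertices, with vertex set
`S` and last label `t`, in which any two consecutive labels `s, t` satisfy `r s t`. -/
inductive TPath (G : TemporalGraph V) (r : ℕ → ℕ → Prop) (u : V) : V → ℕ → Set V → Prop
  | single {v : V} {t : ℕ} : u ≠ v → G.E u v → t ∈ G.lam u v → TPath G r u v t {u, v}
  | snoc {w v : V} {s t : ℕ} {S : Set V} : TPath G r u w s S → v ∉ S → G.E w v → t ∈ G.lam w v →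
      r s t → TPath G r u v t (insert v S)

/-- the arcs of the reachability graph; `r` is `≤` for non-strict and `<` for strict paths -/
def Reach (G : TemporalGraph V) (r : ℕ → ℕ → Prop) (u v : V) : Prop :=
  u ≠ v ∧ ∃ t S, TPath G r u v t S

/-- forget the structure -/
def toCore (G : TemporalGraph V) : TG.TemporalGraph V := ⟨G.E, G.lam⟩

theorem start_mem {G : TemporalGraph V} {r : ℕ → ℕ → Prop} {u v : V} {t : ℕ} {S : Set V}
    (h : TPath G r u v t S) : u ∈ S := by
  induction h with
  | single _ _ _ => exact Set.mem_insert _ _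
  | snoc _ _ _ _ _ ih => exact Set.mem_insert_of_mem _ ih

theorem end_mem {G : TemporalGraph V} {r : ℕ → ℕ → Prop} {u v : V} {t : ℕ} {S : Set V}
    (h : TPath G r u v t S) : v ∈ S := by
  cases h with
  | single _ _ _ => simp
  | snoc _ _ _ _ _ => exact Set.mem_insert _ _

theorem trunc {G : TemporalGraph V} {u w : V} {s : ℕ} {S : Set V}
    (h : TPath G (· ≤ ·) u w s S) : ∀ v ∈ S, v = u ∨ ∃ s' ≤ s, ∃ S', TPath G (· ≤ ·) u v s' S' := by
  induction h with
  | @single w t hne hE hl =>
      intro v hv
      rcases hv with hv | hv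
      · left; exact hv
      · right
        have hv' : v = w := hv
        subst hv'
        exact ⟨t, le_refl _, _, TPath.single hne hE hl⟩
  | @snoc w v' s t S hp hv' hE hl hst ih =>
      intro v hv
      rcases hv with hv | hv
      · right; subst hv; exact ⟨t, le_refl _, _, TPath.snoc hp hv' hE hl hst⟩
      · rcases ih v hv with h | ⟨s', hs', S', h⟩
        · left; exact h
        · right; exact ⟨s', le_trans hs' hst, S', h⟩

theorem of_walk {G : TemporalGraph V} {u v : V} {t : ℕ} (h : TG.TPath (toCore G) u v t) :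
    v = u ∨ ∃ s ≤ t, ∃ S, TPath G (· ≤ ·) u v s S := by
  induction h with
  | @single v t hE hl =>
      by_cases hne : v = u
      · left; exact hne
      · right; exact ⟨t, le_refl _, _, TPath.single (fun h => hne h.symm) hE hl⟩
  | @snoc w v s t hp hE hl hst ih =>
      by_cases hne : v = u
      · left; exact hne
      · right
        rcases ih with h | ⟨s', hs', S, h⟩
        · subst h
          exact ⟨t, le_refl _, _, TPath.single (fun h => hne h.symm) hE hl⟩
        · by_cases hv : v ∈ S
          · rcases trunc h v hv with h' | ⟨s'', hs'', S', h'⟩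
            · exact absurd h' hne
            · exact ⟨s'', by omega, S', h'⟩
          · exact ⟨t, le_refl _, _, TPath.snoc h hv hE hl (le_trans hs' hst)⟩

theorem to_walk {G : TemporalGraph V} {u v : V} {t : ℕ} {S : Set V}
    (h : TPath G (· ≤ ·) u v t S) : TG.TPath (toCore G) u v t := by
  induction h with
  | single _ hE hl => exact TG.TPath.single hE hl
  | snoc _ _ hE hl hst ih => exact TG.TPath.snoc ih hE hl hst

theorem reach_core (G : TemporalGraph V) (u v : V) :
    Reach G (· ≤ ·) u v ↔ TG.Reach (toCore G) u v := by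
  constructor
  · rintro ⟨hne, t, S, h⟩
    exact ⟨hne, t, to_walk h⟩
  · rintro ⟨hne, t, h⟩
    rcases of_walk h with h | ⟨s, _, S, h⟩
    · exact absurd h.symm hne
    · exact ⟨hne, s, S, h⟩

theorem last_arc {G : TemporalGraph V} {r : ℕ → ℕ → Prop} {u v : V} {t : ℕ} {S : Set V}
    (h : TPath G r u v t S) : ∃ w, G.E w v ∧ t ∈ G.lam w v := by
  cases h with
  | single _ hE hl => exact ⟨_, hE, hl⟩
  | snoc _ _ hE hl _ => exact ⟨_, hE, hl⟩

theorem strict_iff (G : TemporalGraph V) (hP : Proper G) (u v : V) :
    Reach G (· < ·) u v ↔ Reach G (· ≤ ·) u v := by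
  constructor
  · rintro ⟨hne, t, S, h⟩
    refine ⟨hne, t, S, ?_⟩
    clear hne
    induction h with
    | single hne hE hl => exact TPath.single hne hE hl
    | snoc _ hv hE hl hst ih => exact TPath.snoc ih hv hE hl (le_of_lt hst)
  · rintro ⟨hne, t, S, h⟩
    refine ⟨hne, t, S, ?_⟩
    clear hne
    induction h with
    | single hne hE hl => exact TPath.single hne hE hl
    | @snoc w v s t S hp hv hE hl hst ih =>
        refine TPath.snoc ih hv hE hl ?_
        obtain ⟨w', hE', hl'⟩ := last_arc hp
        have hvw : v ≠ w := fun h => hv (h ▸ end_mem hp)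
        exact lt_of_le_of_ne hst (hP w' w v s t hE' hl' hE hl hvw)

/-- the labelled 9-cycle -/
def G₁ : TemporalGraph (Fin 9) := ⟨TG.G₀.E, TG.G₀.lam⟩

theorem undirected : Undirected G₁ := by
  have hU := TG.core.{0}.1
  have hne : ∀ u v : Fin 9, (v = u + 1 ∨ u = v + 1) → TG.cyc u v ≠ [] := by decide +kernel
  refine ⟨?_, ?_⟩
  · intro u v h
    refine ⟨(hU u v h).1, ?_, ?_⟩
    · exact List.finite_toSet (TG.cyc u v)
    · obtain ⟨t, ht⟩ := List.exists_mem_of_ne_nil _ (hne u v h)
      exact ⟨t, ht⟩
  · intro u v h
    exact (hU u v h).2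

/-- There is an undirected temporal graph `G` (on 9 vertices) whose non-strict reachability graph is not
isomorphic to the reachability graph of any directed, proper, simple temporal graph `H` (with strict or
with non-strict temporal paths in `H`, which makes no difference). -/
theorem result : ∃ G : TemporalGraph (Fin 9), Undirected G ∧
    ∀ (W : Type u) (H : TemporalGraph W), Directed H → Proper H → Simple H →
      (¬ ∃ φ : Fin 9 ≃ W, ∀ a b, Reach G (· ≤ ·) a b ↔ Reach H (· ≤ ·) (φ a) (φ b)) ∧
      (¬ ∃ φ : Fin 9 ≃ W, ∀ a b, Reach G (· ≤ ·) a b ↔ Reach H (· < ·) (φ a) (φ b)) := by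
  refine ⟨G₁, undirected, ?_⟩
  intro W H _ hP hS
  have main : ¬ ∃ φ : Fin 9 ≃ W, ∀ a b, Reach G₁ (· ≤ ·) a b ↔ Reach H (· ≤ ·) (φ a) (φ b) := by
    rintro ⟨φ, hφ⟩
    refine TG.core.2 W (toCore H) hS ⟨φ, ?_⟩
    intro a b
    rw [← reach_core H (φ a) (φ b), ← hφ a b]
    exact (reach_core G₁ a b).symm
  refine ⟨main, ?_⟩
  rintro ⟨φ, hφ⟩
  refine main ⟨φ, ?_⟩
  intro a b
  rw [hφ a b, strict_iff H hP]

end Pool.Agent.Results.MP_352b69_co.NoProperSimple
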